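import Pool.Agent.Helper29.BL.GoalsA
import Pool.Agent.Helper29.BL.GoalsD

/-!
# Project BL (MP_a41896_nt), packet BALL: one small ball
-/

namespace Pool.Agent.Helper36.BL

open WeierstrassCurve Height Height.AdmissibleAbsValues Polynomial Pool.Agent.Helper29.BL
open scoped Polynomial.Bivariate

noncomputable section

theorem ballH_mono {K : Type} [Field K] [AdmissibleAbsValues K] [DecidableEq K] {W₁ W₂ : Affine K}
    {H₁ : W₁.Point → ℝ} {H₂ : W₂.Point → ℝ} {d ε ε' T : ℝ} {B : Finset (W₁.Point × W₂.Point)}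
    (h : BallH H₁ H₂ d ε T B) (hε : ε ≤ ε') (hT : 0 ≤ T) : BallH H₁ H₂ d ε' T B :=
  ⟨h.nt, h.bad, h.size, fun z hz z' hz' =>
    (h.diam z hz z' hz').trans (mul_le_mul_of_nonneg_right hε hT)⟩

theorem finite_prod {α β : Type} (H₁ : α → ℝ) (H₂ : β → ℝ) (h₁ : ∀ x, 0 ≤ H₁ x) (h₂ : ∀ x, 0 ≤ H₂ x)
    (f₁ : ∀ B : ℝ, {x | H₁ x ≤ B}.Finite) (f₂ : ∀ B : ℝ, {x | H₂ x ≤ B}.Finite) (B : ℝ) :
    {z : α × β | H₁ z.1 + H₂ z.2 ≤ B}.Finite := by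
  refine ((f₁ B).prod (f₂ B)).subset ?_
  rintro ⟨x, y⟩ hxy
  have hxy' : H₁ x + H₂ y ≤ B := hxy
  have e1 : H₁ x ≤ B := by have := h₂ y; linarith
  have e2 : H₂ y ≤ B := by have := h₁ x; linarith
  exact ⟨e1, e2⟩

theorem isQuad_prod {G G' : Type} [AddCommGroup G] [AddCommGroup G'] {H₁ : G → ℝ} {H₂ : G' → ℝ}
    (h₁ : IsQuad H₁) (h₂ : IsQuad H₂) : IsQuad (fun z : G × G' => H₁ z.1 + H₂ z.2) := by
  refine ⟨fun z => add_nonneg (h₁.nonneg _) (h₂.nonneg _), fun x y => ?_⟩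
  have e1 := h₁.par x.1 y.1
  have e2 := h₂.par x.2 y.2
  simp only [Prod.fst_add, Prod.snd_add, Prod.fst_sub, Prod.snd_sub]
  linarith

theorem sqrt_le_self {a T : ℝ} (hT : 1 ≤ T) (ha : a ≤ T) : √a ≤ T := by
  rw [Real.sqrt_le_left (by linarith)]
  nlinarith

theorem ball_of : CRV → STB → CHAIN → NOR → QSN → BALL := by
  intro hCRV hSTB hCHAIN hNOR _ K _ _ _ W₁ W₂ _ _ H₁ H₂ c₀ hH₁ hH₂ Γ₁ Γ₂ hΓ₁ hΓ₂ d hd
  obtain ⟨m, t, hc⟩ := hCRV K W₁ W₂ H₁ H₂ c₀ hH₁ hH₂ d hd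
  obtain ⟨q, εs, hεs, Ts, hs⟩ := hSTB K W₁ W₂ H₁ H₂ c₀ hH₁ hH₂ d m hd
  obtain ⟨εc, hεc, Tc, R1, Kc, K0, hR1, hKc, hK0, hc⟩ := hc q
  have hf₁ := ((hNOR K W₁).2 H₁ c₀ hH₁).1
  have hf₂ := ((hNOR K W₂).2 H₂ c₀ hH₂).1
  have hq := isQuad_prod hH₁.quad hH₂.quad
  have hfin := finite_prod H₁ H₂ hH₁.quad.nonneg hH₂.quad.nonneg hf₁ hf₂
  have hFG : (Γ₁.prod Γ₂).FG := hΓ₁.prod hΓ₂
  let _ : DecidableEq (W₁.Point × W₂.Point) := Classical.decEq _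
  obtain ⟨C, hC0, hC⟩ := hCHAIN (W₁.Point × W₂.Point) (Γ₁.prod Γ₂) hFG
    (fun z => H₁ z.1 + H₂ z.2) hq hfin t Kc K0 R1 hKc hK0 hR1
  refine ⟨8 * m, min 1 (min εs εc), lt_min one_pos (lt_min hεs hεc), max 1 (max Ts Tc), C, hC0,
    le_max_left _ _, ?_⟩
  intro T hT B hBΓ hB hDeg
  have hT1 : 1 ≤ T := (le_max_left _ _).trans hT
  have hTs : Ts ≤ T := (le_max_left _ _).trans ((le_max_right _ _).trans hT)
  have hTc : Tc ≤ T := (le_max_right _ _).trans ((le_max_right _ _).trans hT)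
  have hT0 : 0 ≤ T := by linarith
  have hBs : BallH H₁ H₂ d εs T B :=
    ballH_mono hB ((min_le_right _ _).trans (min_le_left _ _)) hT0
  have hBc : BallH H₁ H₂ d εc T B :=
    ballH_mono hB ((min_le_right _ _).trans (min_le_right _ _)) hT0
  have hB1 : BallH H₁ H₂ d 1 T B := ballH_mono hB (min_le_left _ _) hT0
  refine hC B (fun z hz => ?_) ?_ T hT1 ?_
  · exact AddSubgroup.mem_prod.2 (hBΓ z hz)
  · intro x Tch hch
    obtain ⟨S, Φ, hSB, hqS, hΦ, hBD, hPD, hST⟩ := hc T hTc B hBc x Tch hch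
    exact hs T hTs B hBs hDeg S Φ hSB hqS hΦ hBD hPD hST
  · intro z hz z' hz'
    have h1 := hB1.diam z hz z' hz'
    rw [one_mul] at h1
    exact sqrt_le_self hT1 h1

end

end Pool.Agent.Helper36.BL
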