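import Pool.Agent.Helper29.BL.GoalsF
import Pool.Agent.Helper36.BL.BALL

/-!
# Project BL (MP_a41896_nt), packet BALLg: one small ball, for height functions with the
triangle inequality and the packing property
-/

namespace Pool.Agent.Helper36.BL

open WeierstrassCurve Height Height.AdmissibleAbsValues Polynomial Pool.Agent.Helper29.BL
open scoped Polynomial.Bivariate

noncomputable section

theorem minkowski2 (a₁ a₂ b₁ b₂ : ℝ) :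
    √((a₁ + b₁) ^ 2 + (a₂ + b₂) ^ 2) ≤ √(a₁ ^ 2 + a₂ ^ 2) + √(b₁ ^ 2 + b₂ ^ 2) := by
  have hA : 0 ≤ a₁ ^ 2 + a₂ ^ 2 := by positivity
  have hB : 0 ≤ b₁ ^ 2 + b₂ ^ 2 := by positivity
  have sA := Real.sq_sqrt hA
  have sB := Real.sq_sqrt hB
  have nA := Real.sqrt_nonneg (a₁ ^ 2 + a₂ ^ 2)
  have nB := Real.sqrt_nonneg (b₁ ^ 2 + b₂ ^ 2)
  have hcs : a₁ * b₁ + a₂ * b₂ ≤ √(a₁ ^ 2 + a₂ ^ 2) * √(b₁ ^ 2 + b₂ ^ 2) := by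
    rw [← Real.sqrt_mul hA]
    refine Real.le_sqrt_of_sq_le ?_
    nlinarith [sq_nonneg (a₁ * b₂ - a₂ * b₁)]
  rw [Real.sqrt_le_left (by positivity)]
  nlinarith

theorem tri_prod {G G' : Type} [AddCommGroup G] [AddCommGroup G'] {H₁ : G → ℝ} {H₂ : G' → ℝ}
    (n₁ : ∀ x, 0 ≤ H₁ x) (n₂ : ∀ x, 0 ≤ H₂ x)
    (t₁ : ∀ x y, √(H₁ (x + y)) ≤ √(H₁ x) + √(H₁ y))
    (t₂ : ∀ x y, √(H₂ (x + y)) ≤ √(H₂ x) + √(H₂ y)) (x y : G × G') :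
    √(H₁ (x + y).1 + H₂ (x + y).2) ≤ √(H₁ x.1 + H₂ x.2) + √(H₁ y.1 + H₂ y.2) := by
  have h1 : H₁ (x + y).1 ≤ (√(H₁ x.1) + √(H₁ y.1)) ^ 2 := by
    rw [← Real.sqrt_le_left (by positivity)]
    exact t₁ x.1 y.1
  have h2 : H₂ (x + y).2 ≤ (√(H₂ x.2) + √(H₂ y.2)) ^ 2 := by
    rw [← Real.sqrt_le_left (by positivity)]
    exact t₂ x.2 y.2
  have h3 := minkowski2 (√(H₁ x.1)) (√(H₂ x.2)) (√(H₁ y.1)) (√(H₂ y.2))
  rw [Real.sq_sqrt (n₁ _), Real.sq_sqrt (n₂ _), Real.sq_sqrt (n₁ _), Real.sq_sqrt (n₂ _)] at h3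
  exact (Real.sqrt_le_sqrt (add_le_add h1 h2)).trans h3

theorem pk_prod {G G' : Type} [AddCommGroup G] [AddCommGroup G'] {H₁ : G → ℝ} {H₂ : G' → ℝ}
    (n₁ : ∀ x, 0 ≤ H₁ x) (n₂ : ∀ x, 0 ≤ H₂ x) {Γ₁ : AddSubgroup G} {Γ₂ : AddSubgroup G'}
    (p₁ : Pk Γ₁ H₁) (p₂ : Pk Γ₂ H₂) : Pk (Γ₁.prod Γ₂) (fun z : G × G' => H₁ z.1 + H₂ z.2) := by
  classical
  intro κ hκ
  have s2 : 1 ≤ √(2 : ℝ) := by
    rw [Real.one_le_sqrt]; norm_num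
  have s20 : 0 < √(2 : ℝ) := by positivity
  have hκ' : 1 ≤ κ * √2 := by nlinarith
  obtain ⟨N₁, hN₁⟩ := p₁ (κ * √2) hκ'
  obtain ⟨N₂, hN₂⟩ := p₂ (κ * √2) hκ'
  refine ⟨N₁ * N₂, fun B hB ρ hρ hd => ?_⟩
  have hρ' : 0 < ρ / √2 := by positivity
  have hmul : κ * √2 * (ρ / √2) = κ * ρ := by field_simp
  obtain ⟨f₁, hf₁⟩ := hN₁ (B.image Prod.fst) (by
    intro z hz
    obtain ⟨w, hw, rfl⟩ := Finset.mem_image.1 hz
    exact (AddSubgroup.mem_prod.1 (hB w hw)).1) (ρ / √2) hρ' (by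
    intro z hz z' hz'
    obtain ⟨w, hw, rfl⟩ := Finset.mem_image.1 hz
    obtain ⟨w', hw', rfl⟩ := Finset.mem_image.1 hz'
    rw [hmul]
    refine (Real.sqrt_le_sqrt ?_).trans (hd w hw w' hw')
    have := n₂ (w - w').2
    change H₁ (w - w').1 ≤ H₁ (w - w').1 + H₂ (w - w').2
    linarith)
  obtain ⟨f₂, hf₂⟩ := hN₂ (B.image Prod.snd) (by
    intro z hz
    obtain ⟨w, hw, rfl⟩ := Finset.mem_image.1 hz
    exact (AddSubgroup.mem_prod.1 (hB w hw)).2) (ρ / √2) hρ' (by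
    intro z hz z' hz'
    obtain ⟨w, hw, rfl⟩ := Finset.mem_image.1 hz
    obtain ⟨w', hw', rfl⟩ := Finset.mem_image.1 hz'
    rw [hmul]
    refine (Real.sqrt_le_sqrt ?_).trans (hd w hw w' hw')
    have := n₁ (w - w').1
    change H₂ (w - w').2 ≤ H₁ (w - w').1 + H₂ (w - w').2
    linarith)
  refine ⟨fun z => finProdFinEquiv (f₁ z.1, f₂ z.2), fun z hz z' hz' h => ?_⟩
  have h' := finProdFinEquiv.injective h
  have e1 : f₁ z.1 = f₁ z'.1 := congrArg Prod.fst h'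
  have e2 : f₂ z.2 = f₂ z'.2 := congrArg Prod.snd h'
  have g1 := hf₁ z.1 (Finset.mem_image_of_mem _ hz) z'.1 (Finset.mem_image_of_mem _ hz') e1
  have g2 := hf₂ z.2 (Finset.mem_image_of_mem _ hz) z'.2 (Finset.mem_image_of_mem _ hz') e2
  rw [Real.sqrt_le_left hρ'.le, div_pow, Real.sq_sqrt (by norm_num : (0 : ℝ) ≤ 2)] at g1 g2
  rw [Real.sqrt_le_left hρ.le]
  change H₁ (z.1 - z'.1) + H₂ (z.2 - z'.2) ≤ ρ ^ 2
  linarith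

theorem ballg_of : CRVg → STBg → CHAINg → NORg → BALLg := by
  intro hCRV hSTB hCHAIN hNOR K _ _ _ W₁ W₂ H₁ H₂ c₀ e₁ e₂ hH₁ hH₂ Γ₁ Γ₂ hΓ₁ hΓ₂ d hd
  obtain ⟨m, t, hc⟩ := hCRV K W₁ W₂ H₁ H₂ c₀ e₁ e₂ hH₁ hH₂ d hd
  obtain ⟨q, εs, hεs, Ts, hs⟩ := hSTB K W₁ W₂ H₁ H₂ c₀ e₁ e₂ hH₁ hH₂ d m hd
  obtain ⟨εc, hεc, Tc, R1, Kc, K0, hR1, hKc, hK0, hc⟩ := hc q
  have hf₁ := (hNOR K W₁ H₁ c₀ e₁ hH₁).1
  have hf₂ := (hNOR K W₂ H₂ c₀ e₂ hH₂).1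
  have hfin := finite_prod H₁ H₂ hH₁.nonneg hH₂.nonneg hf₁ hf₂
  let _ : DecidableEq (W₁.Point × W₂.Point) := Classical.decEq _
  obtain ⟨C, hC0, hC⟩ := hCHAIN (W₁.Point × W₂.Point) (Γ₁.prod Γ₂)
    (fun z => H₁ z.1 + H₂ z.2) (fun z => add_nonneg (hH₁.nonneg _) (hH₂.nonneg _))
    (fun z => congrArg₂ (· + ·) (hH₁.neg z.1) (hH₂.neg z.2))
    (fun x y => tri_prod hH₁.nonneg hH₂.nonneg hH₁.tri hH₂.tri x y) hfin
    (pk_prod hH₁.nonneg hH₂.nonneg hΓ₁ hΓ₂) t Kc K0 R1 hKc hK0 hR1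
  refine ⟨8 * m, min 1 (min εs εc), lt_min one_pos (lt_min hεs hεc), max 1 (max Ts Tc), C, hC0,
    le_max_left _ _, ?_⟩
  intro T hT B hBΓ hB hDeg
  have hT1 : 1 ≤ T := (le_max_left _ _).trans hT
  have hTs : Ts ≤ T := (le_max_left _ _).trans ((le_max_right _ _).trans hT)
  have hTc : Tc ≤ T := (le_max_right _ _).trans ((le_max_right _ _).trans hT)
  have hT0 : 0 ≤ T := by linarith
  have hBs : BallH H₁ H₂ d εs T B :=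
    ballH_mono hB ((min_le_right _ _).trans (min_le_left _ _)) hT0
  have hBc : BallH H₁ H₂ d εc T B :=
    ballH_mono hB ((min_le_right _ _).trans (min_le_right _ _)) hT0
  have hB1 : BallH H₁ H₂ d 1 T B := ballH_mono hB (min_le_left _ _) hT0
  refine hC B (fun z hz => ?_) ?_ T hT1 ?_
  · exact AddSubgroup.mem_prod.2 (hBΓ z hz)
  · intro x Tch hch
    obtain ⟨S, Φ, hSB, hqS, hΦ, hBD, hPD, hST⟩ := hc T hTc B hBc x Tch hch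
    exact hs T hTs B hBs hDeg S Φ hSB hqS hΦ hBD hPD hST
  · intro z hz z' hz'
    have h1 := hB1.diam z hz z' hz'
    rw [one_mul] at h1
    exact sqrt_le_self hT1 h1

end

end Pool.Agent.Helper36.BL
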